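import Mathlib

open Filter Topology Set MeasureTheory NormedSpace Asymptotics

noncomputable section

namespace Pool.Agent.Results.MP_245269_an.NoExpansion

/-- The Banach space `ℝ^(K+1)` (sup norm). -/
abbrev B (K : ℕ) := ZMod (K + 1) → ℝ

/-- Bounded operators on `B K`. -/
def Op (K : ℕ) := B K →L[ℝ] B K

instance (K : ℕ) : NormedRing (Op K) := (inferInstance : NormedRing (B K →L[ℝ] B K))
instance (K : ℕ) : NormedAlgebra ℝ (Op K) := (inferInstance : NormedAlgebra ℝ (B K →L[ℝ] B K))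

variable {K : ℕ}

/-- The (semi)group `exp (t A)` generated by a bounded operator `A`. -/
def U (A : Op K) (t : ℝ) : Op K := exp (t • A)

/-- `L_t = (U⁰_t)⁻¹ L U⁰_t`. -/
def Lt (L₀ L : Op K) (t : ℝ) : Op K := U L₀ (-t) * L * U L₀ t

/-- `‖P L_{τ 0} ⋯ L_{τ (k-1)} P‖`. -/
def corr (P L₀ L : Op K) {k : ℕ} (τ : Fin k → ℝ) : ℝ :=
  ‖P * (List.ofFn fun i => Lt L₀ L (τ i)).prod * P‖

/-- The standing hypotheses, with integrability for all orders `k = 1, …, N`. -/
def Hyp (P L₀ L : Op K) (N : ℕ) : Prop :=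
  P * P = P ∧ (∀ t, U L₀ t * P = P * U L₀ t) ∧ P * L * P = 0 ∧
    ∀ k, 1 ≤ k → k ≤ N → ∀ t : ℝ,
      IntegrableOn (corr P L₀ L) {τ : Fin k → ℝ | StrictAnti τ ∧ ∀ i, τ i < t}

/-- An operator polynomial in `l`. -/
def poly (R : List (Op K)) (l : ℝ) : Op K := ∑ j : Fin R.length, l ^ (j : ℕ) • R.get j

/-- `P (U⁰_{t/l²})⁻¹ U^l_{t/l²} P - u^l_t r^l`. -/
def err (P L₀ L : Op K) (G R : List (Op K)) (t l : ℝ) : Op K :=
  P * U L₀ (-(t / l ^ 2)) * U (L₀ + l • L) (t / l ^ 2) * P - U (poly G l) t * poly R l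

instance : CompleteSpace (Op K) := inferInstanceAs (CompleteSpace (B K →L[ℝ] B K))

def cyc (K : ℕ) : B K →L[ℝ] B K :=
  ContinuousLinearMap.pi fun i => ContinuousLinearMap.proj (i - 1)
def pz (K : ℕ) : B K →L[ℝ] B K :=
  (ContinuousLinearMap.single ℝ (fun _ => ℝ) 0).comp (ContinuousLinearMap.proj 0)

lemma cyc_pow (k : ℕ) (x : B K) (i : ZMod (K + 1)) : (cyc K ^ k) x i = x (i - k) := by
  induction k generalizing i with
  | zero => simp
  | succ k ih =>
    rw [pow_succ', ContinuousLinearMap.mul_apply]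
    show (cyc K ^ k) x (i - 1) = _
    rw [ih]; congr 1; push_cast; ring

def ev (K : ℕ) : (B K →L[ℝ] B K) →L[ℝ] ℝ :=
  (ContinuousLinearMap.proj 0).comp (ContinuousLinearMap.apply ℝ (B K) (Pi.single 0 1))

lemma ev_apply (T : B K →L[ℝ] B K) : ev K T = T (Pi.single 0 1) 0 := rfl

lemma low {s : ℝ} (hs : 0 ≤ s) :
    s ^ (K + 1) / (K + 1).factorial ≤ ev K (pz K * exp (s • cyc K) * pz K) := by
  have h := (ev K).hasSum (expSeries_hasSum_exp (𝕂 := ℝ) (s • cyc K))
  have e : ev K (pz K * exp (s • cyc K) * pz K) = ev K (exp (s • cyc K)) := by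
    simp [ev_apply, pz]
  have t : ∀ k, ev K (expSeries ℝ _ k fun _ => s • cyc K) =
      s ^ k / k.factorial * (Pi.single 0 1 : B K) (0 - k) := fun k => by
    rw [expSeries_apply_eq, smul_pow, map_smul, map_smul, ev_apply, cyc_pow]
    simp only [smul_eq_mul]
    ring
  rw [e]
  refine le_trans (le_of_eq ?_) (le_hasSum h (K + 1) fun k _ => ?_)
  · rw [t]; simp
  · rw [t]
    refine mul_nonneg (by positivity) ?_
    rw [Pi.single_apply]; split_ifs <;> norm_num

lemma U0 (t : ℝ) : U (0 : Op K) t = 1 := by simp [U]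

theorem result (N : ℕ) : ∃ (K : ℕ) (P L₀ L : Op K), Hyp P L₀ L N ∧
    ∀ (G R : List (Op K)) (t : ℝ), 0 < t →
      ¬ (err P L₀ L G R t =O[𝓝[>] 0] fun _ => (1 : ℝ)) := by
  have z : ∀ k, 1 ≤ k → k ≤ N + 1 → pz (N + 1) * cyc (N + 1) ^ k * pz (N + 1) = 0 :=
    fun k h1 h2 => by
      ext x i
      have : (k : ZMod (N + 1 + 1)) ≠ 0 := fun h => by
        have := Nat.le_of_dvd h1 ((ZMod.natCast_eq_zero_iff _ _).1 h)
        omega
      show pz _ ((cyc (N + 1) ^ k) (pz _ x)) i = 0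
      have e : (cyc (N + 1) ^ k) (pz _ x) 0 = 0 := by
        rw [cyc_pow]; simp [pz, this]
      show (Pi.single 0 ((cyc (N + 1) ^ k) (pz _ x) 0) : B (N + 1)) i = 0
      rw [e]; simp
  refine ⟨N + 1, pz _, 0, cyc _, ⟨?_, fun t => by rw [U0, one_mul, mul_one], ?_,
    fun k h1 h2 t => ?_⟩, fun G R t ht h => ?_⟩
  · show pz _ * pz _ = pz _
    ext x i
    show pz _ (pz _ x) i = _
    simp [pz]
  · have := z 1 le_rfl (by omega)
    rw [pow_one] at this
    exact this
  · have : corr (pz (N + 1)) 0 (cyc _) = fun _ : Fin k → ℝ => 0 := by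
      funext τ
      simp only [corr, Lt, U0, one_mul, mul_one, List.ofFn_const, List.prod_replicate]
      exact norm_eq_zero.2 (z k h1 (by omega))
    rw [this]
    exact integrableOn_zero
  · have cp : ∀ R : List (Op (N + 1)), Continuous (poly R) := fun R => by unfold poly; fun_prop
    have c : Continuous fun l => U (poly G l) t * poly R l := by
      letI : NormedAlgebra ℚ (Op (N + 1)) := NormedAlgebra.restrictScalars ℚ ℝ _
      exact (exp_continuous.comp ((cp G).const_smul t)).mul (cp R)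
    have b := h.add (Tendsto.isBigO_one ℝ ((c.tendsto 0).mono_left nhdsWithin_le_nhds))
    obtain ⟨C, hC⟩ := (((ev (N + 1)).isBigO_comp _ _).trans b).bound
    have d : Tendsto (fun l : ℝ => (t / l) ^ (N + 1 + 1) / (N + 1 + 1).factorial) (𝓝[>] 0) atTop :=
      ((tendsto_pow_atTop (by omega)).comp
        (tendsto_inv_nhdsGT_zero.const_mul_atTop ht)).atTop_div_const (by positivity)
    obtain ⟨l, h1, h2, h3⟩ := (hC.and ((d.eventually_gt_atTop C).and self_mem_nhdsWithin)).exists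
    have h3 : 0 < l := h3
    have e : (t / l ^ 2) • l • cyc (N + 1) = (t / l) • cyc (N + 1) := by
      rw [smul_smul]; congr 1; field_simp
    simp only [err, sub_add_cancel, U0, mul_one, zero_add, norm_one] at h1
    have := low (K := N + 1) (div_pos ht h3).le
    rw [← e] at this
    exact absurd (this.trans ((le_abs_self _).trans h1)) (not_le.2 h2)

end Pool.Agent.Results.MP_245269_an.NoExpansion
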